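import Pool.Agent.V11204.CubicFix

/-!
# Differentiable nonexpansive retractions onto fixed point sets (MP_735b88_an, Q1: no)

On `ℝ³` with the maximum norm let `f (x, y, z) = (x, y, z - h (x, y, z) / 18)` with
`h = φ (z - x) + φ (z - y) + 7 φ z`, `φ t = t - sin t`. It is real analytic and nonexpansive. The
fixed point set `h = 0` is asymptotic at the origin to the cone `(z - x)³ + (z - y)³ + 7 z³ = 0`,
which contains the three independent directions `(3, 0, 1)`, `(0, 3, 1)`, `(7, 8, 3)`. So the
derivative at `0` of a differentiable retraction onto the fixed point set is the identity, but the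
fixed point set is contained in `|z| ≤ max |x| |y|`. (The idea of the example is due to helper99.)
-/

set_option autoImplicit false

open Filter Set Topology

namespace Pool.Agent.Results.MP_735b88_an.NoDifferentiableRetraction

open Pool.Agent.V11204.CubicFix

/-- The norm of `X` is polyhedral: it is the maximum of the absolute values of finitely many linear
functionals. -/
def IsPolyhedralNorm (X : Type) [NormedAddCommGroup X] [NormedSpace ℝ X] : Prop :=
  ∃ (m : ℕ) (φ : Fin m → X →ₗ[ℝ] ℝ), ∀ x : X, IsGreatest (range fun i => |φ i x|) ‖x‖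

/-- `r` is a retraction of `X` onto `A`. -/
def IsRetractionOnto {X : Type} (r : X → X) (A : Set X) : Prop :=
  range r = A ∧ ∀ a ∈ A, r a = a

/-- `ℝ³` with the maximum norm is a polyhedral normed space, and it has a nonexpansive real analytic
self-map `f` with nonempty fixed point set such that no retraction of `ℝ³` onto `Fix f`, nonexpansive
or not, is differentiable. -/
theorem result :
    IsPolyhedralNorm (Fin 3 → ℝ) ∧
    ∃ f : (Fin 3 → ℝ) → (Fin 3 → ℝ), LipschitzWith 1 f ∧ AnalyticOnNhd ℝ f univ ∧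
      (Function.fixedPoints f).Nonempty ∧
      ¬ ∃ r : (Fin 3 → ℝ) → (Fin 3 → ℝ),
        IsRetractionOnto r (Function.fixedPoints f) ∧ Differentiable ℝ r := by
  refine ⟨⟨3, fun i => LinearMap.proj i, fun x => IsGreatest.pi_norm x⟩,
    f, nonexpansive, analytic, ⟨0, zero_mem⟩, ?_⟩
  rintro ⟨r, ⟨hr, hid⟩, hd⟩
  have h0 : r 0 = 0 := hid 0 zero_mem
  have hD := (hd 0).hasFDerivAt
  set D := fderiv ℝ r 0 with hDdef
  have h1 : HasFDerivWithinAt r (ContinuousLinearMap.id ℝ (Fin 3 → ℝ))
      (Function.fixedPoints f) 0 :=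
    (hasFDerivWithinAt_id 0 _).congr hid h0
  have h2 : D = ContinuousLinearMap.id ℝ (Fin 3 → ℝ) :=
    eq_of_cone (hD.hasFDerivWithinAt.unique_on h1)
  rw [h2] at hD
  have h3 := hD.isLittleO.def (show (0 : ℝ) < 1 / 3 by norm_num)
  have h4 : Tendsto (fun s : ℝ => (![0, 0, s] : Fin 3 → ℝ)) (𝓝 0) (𝓝 0) := by
    rw [tendsto_pi_nhds]
    intro i
    fin_cases i
    · exact tendsto_const_nhds
    · exact tendsto_const_nhds
    · exact tendsto_id
  have h5 := (h4.mono_left (nhdsWithin_le_nhds (s := Ioi 0))).eventually h3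
  obtain ⟨s, hs, hs0⟩ := (h5.and self_mem_nhdsWithin).exists
  have hs0' : (0 : ℝ) < s := hs0
  simp only [h0, sub_zero, ContinuousLinearMap.id_apply] at hs
  have hn : ‖(![0, 0, s] : Fin 3 → ℝ)‖ ≤ s := by
    rw [pi_norm_le_iff_of_nonneg hs0'.le]
    intro i
    fin_cases i
    · simpa using hs0'.le
    · simpa using hs0'.le
    · simp [abs_of_pos hs0']
  have hmem : r ![0, 0, s] ∈ Function.fixedPoints f := by
    rw [← hr]
    exact ⟨_, rfl⟩
  rw [mem_fix] at hmem
  have hb := fix_bound hmem
  set q := r ![0, 0, s] with hq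
  have hle : ∀ i, |q i - (![0, 0, s] : Fin 3 → ℝ) i| ≤ 1 / 3 * s := by
    intro i
    have e1 := norm_le_pi_norm (q - ![0, 0, s]) i
    rw [Real.norm_eq_abs, Pi.sub_apply] at e1
    exact e1.trans (hs.trans (mul_le_mul_of_nonneg_left hn (by norm_num)))
  have e0 := hle 0
  have e1 := hle 1
  have e2 := hle 2
  simp only [Matrix.cons_val_zero, Matrix.cons_val_one, Matrix.cons_val, sub_zero] at e0 e1 e2
  have e3 : max |q 0| |q 1| ≤ 1 / 3 * s := max_le e0 e1
  have e4 := (abs_le.1 e2).1
  have e5 := le_abs_self (q 2)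
  linarith

end Pool.Agent.Results.MP_735b88_an.NoDifferentiableRetraction
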